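import Pool.Agent.Run7.h13.PO.CRT

set_option autoImplicit false

namespace Pool.Agent.Run7.h13.PO

open Finset hiding box
open Pool.Agent.Run7.h385.PO
open Pool.Agent.H373R2.T7

lemma count_mod (q : ℕ) (hq : 0 < q) (Y : ℕ) (r : ℤ) :
    |(((Ico (0 : ℤ) Y).filter (fun t => t ≡ r [ZMOD q])).card : ℝ) - (Y : ℝ) / q| ≤ 1 := by
  have hq' : (0 : ℤ) < q := by exact_mod_cast hq
  have h := Int.Ico_filter_modEq_card 0 (Y : ℤ) hq' r
  have hqr : (0 : ℝ) < q := by exact_mod_cast hq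
  have e1 : (((Ico (0 : ℤ) Y).filter (fun t => t ≡ r [ZMOD q])).card : ℝ) =
      ((((Ico (0 : ℤ) Y).filter (fun t => t ≡ r [ZMOD q])).card : ℤ) : ℝ) := by norm_cast
  rw [e1, h]
  set A : ℤ := ⌈(((Y : ℤ) : ℚ) - (r : ℚ)) / ((q : ℤ) : ℚ)⌉ with hA
  set B : ℤ := ⌈(((0 : ℤ) : ℚ) - (r : ℚ)) / ((q : ℤ) : ℚ)⌉ with hB
  have a1 : (((Y : ℤ) : ℚ) - (r : ℚ)) / ((q : ℤ) : ℚ) ≤ (A : ℚ) := Int.le_ceil _
  have a2 : (A : ℚ) < (((Y : ℤ) : ℚ) - (r : ℚ)) / ((q : ℤ) : ℚ) + 1 := Int.ceil_lt_add_one _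
  have b1 : (((0 : ℤ) : ℚ) - (r : ℚ)) / ((q : ℤ) : ℚ) ≤ (B : ℚ) := Int.le_ceil _
  have b2 : (B : ℚ) < (((0 : ℤ) : ℚ) - (r : ℚ)) / ((q : ℤ) : ℚ) + 1 := Int.ceil_lt_add_one _
  have a1' : ((Y : ℝ) - r) / q ≤ A := by exact_mod_cast a1
  have a2' : (A : ℝ) < ((Y : ℝ) - r) / q + 1 := by exact_mod_cast a2
  have b1' : ((0 : ℝ) - r) / q ≤ B := by exact_mod_cast b1
  have b2' : (B : ℝ) < ((0 : ℝ) - r) / q + 1 := by exact_mod_cast b2
  have e2 : ((Y : ℝ) - r) / q = (Y : ℝ) / q + ((0 : ℝ) - r) / q := by ring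
  have hY : (0 : ℝ) ≤ (Y : ℝ) / q := by positivity
  rw [e2] at a1' a2'
  have hm : ((max (A - B) 0 : ℤ) : ℝ) = max ((A : ℝ) - B) 0 := by push_cast; rfl
  rw [hm, abs_le]
  constructor
  · have : (A : ℝ) - B ≤ max ((A : ℝ) - B) 0 := le_max_left _ _
    linarith
  · have : max ((A : ℝ) - B) 0 ≤ (Y : ℝ) / q + 1 := by
      apply max_le <;> linarith
    linarith

lemma prod_close {ι : Type} (s : Finset ι) (c m : ι → ℝ) (x : ℝ) (hx : 0 ≤ x)
    (hm : ∀ j ∈ s, 0 ≤ m j) (h : ∀ j ∈ s, |c j - m j| ≤ x * m j) :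
    |∏ j ∈ s, c j - ∏ j ∈ s, m j| ≤ (∏ j ∈ s, m j) * ((1 + x) ^ s.card - 1) := by
  classical
  induction s using Finset.induction_on with
  | empty => simp
  | insert a s ha ih =>
    have ih' := ih (fun j hj => hm j (mem_insert_of_mem hj)) (fun j hj => h j (mem_insert_of_mem hj))
    have hma := hm a (mem_insert_self _ _)
    have hca := h a (mem_insert_self _ _)
    rw [prod_insert ha, prod_insert ha, card_insert_of_notMem ha]
    set C := ∏ j ∈ s, c j
    set M := ∏ j ∈ s, m j with hM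
    have hM0 : 0 ≤ M := prod_nonneg fun j hj => hm j (mem_insert_of_mem hj)
    have hC : |C| ≤ M * (1 + x) ^ s.card := by
      have : |C| ≤ |C - M| + |M| := by
        have := abs_add_le (C - M) M
        simpa using this
      rw [abs_of_nonneg hM0] at this
      nlinarith [this, ih']
    have e : c a * C - m a * M = (c a - m a) * C + m a * (C - M) := by ring
    rw [e]
    refine (abs_add_le _ _).trans ?_
    rw [abs_mul, abs_mul, abs_of_nonneg hma]
    have h1 : |c a - m a| * |C| ≤ (x * m a) * (M * (1 + x) ^ s.card) :=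
      mul_le_mul hca hC (abs_nonneg _) (by positivity)
    have h2 : m a * |C - M| ≤ m a * (M * ((1 + x) ^ s.card - 1)) := mul_le_mul_of_nonneg_left ih' hma
    refine (add_le_add h1 h2).trans (le_of_eq ?_)
    rw [pow_succ]
    ring

lemma one_add_pow_sub (d : ℕ) (x : ℝ) (hx : 0 ≤ x) (hx1 : x ≤ 1) : (1 + x) ^ d - 1 ≤ 2 ^ d * x := by
  have : (1 + x) ^ d - 1 ≤ (2 ^ d - 1) * x := by
    induction d with
    | zero => simp
    | succ d ih =>
      have h1 : (1 + x) ^ (d + 1) - 1 = (1 + x) * ((1 + x) ^ d - 1) + x := by ring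
      rw [h1]
      have h0 : 0 ≤ (1 + x) ^ d - 1 := by
        have := one_le_pow₀ (n := d) (by linarith : (1 : ℝ) ≤ 1 + x)
        linarith
      have h2 : (1 + x) * ((1 + x) ^ d - 1) ≤ 2 * ((2 ^ d - 1) * x) :=
        mul_le_mul (by linarith) ih h0 (by norm_num)
      have h3 : (2 : ℝ) ^ (d + 1) = 2 * 2 ^ d := by ring
      rw [h3]
      linarith
  nlinarith [this]

theorem t_COUNT' (hCRT : S_CRT) : S_COUNT := by
  intro d A _ S hS hA Y Ym hY hq
  classical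
  set q := ∏ p ∈ S, p with hqdef
  have hq0 : 0 < q := prod_pos fun p' h => (hS p' h).pos
  have hqz : (q : ℤ) ≠ 0 := by exact_mod_cast hq0.ne'
  have hqz' : (0 : ℤ) < q := by exact_mod_cast hq0
  have hqr : (0 : ℝ) < q := by exact_mod_cast hq0
  have hYm0 : 0 < Ym := lt_of_lt_of_le hq0 hq
  have hYmr : (0 : ℝ) < Ym := by exact_mod_cast hYm0
  have hdvd : ∀ p' ∈ S, (p' : ℤ) ∣ (q : ℤ) := by
    intro p' h
    exact Int.natCast_dvd_natCast.2 (dvd_prod_of_mem _ h)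
  set G := (box (fun _ : Fin d => q)).filter (fun t => ∀ p ∈ S, A p t) with hG
  have hGcard : G.card = ∏ p ∈ S, ((box (fun _ : Fin d => p)).filter (fun t => A p t)).card :=
    hCRT d A S hS hA
  have h1 : ((box Y).filter (fun t => ∀ p ∈ S, A p t)).card =
      ∑ r ∈ G, ∏ j, ((Ico (0 : ℤ) (Y j)).filter (fun t => t ≡ r j [ZMOD q])).card := by
    rw [card_eq_sum_card_fiberwise (f := fun t : Fin d → ℤ => fun j => t j % (q : ℤ)) (t := G)]
    · apply sum_congr rfl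
      intro r hr
      rw [hG, mem_filter, mem_box] at hr
      rw [← Fintype.card_piFinset]
      congr 1
      ext t
      rw [mem_filter, mem_filter, mem_box, Fintype.mem_piFinset]
      simp only [mem_filter, mem_Ico]
      constructor
      · rintro ⟨⟨h1, _⟩, h3⟩ j
        refine ⟨h1 j, ?_⟩
        have := congrFun h3 j
        unfold Int.ModEq
        rw [Int.emod_eq_of_lt (hr.1 j).1 (hr.1 j).2]
        exact this
      · intro h
        refine ⟨⟨fun j => (h j).1, ?_⟩, ?_⟩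
        · intro p hp
          exact hA p hp r t (fun j => ((h j).2.symm).of_dvd (hdvd p hp)) (hr.2 p hp)
        · funext j
          have := (h j).2
          unfold Int.ModEq at this
          rw [Int.emod_eq_of_lt (hr.1 j).1 (hr.1 j).2] at this
          exact this
    · intro t ht
      rw [mem_coe, mem_filter, mem_box] at ht
      rw [hG, mem_coe, mem_filter, mem_box]
      refine ⟨fun j => ⟨Int.emod_nonneg _ hqz, Int.emod_lt_of_pos _ hqz'⟩, ?_⟩
      intro p hp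
      exact hA p hp t _ (fun j => ((Int.mod_modEq (t j) (q : ℤ)).symm).of_dvd (hdvd p hp)) (ht.2 p hp)
  have h2 : ((((box Y).filter (fun t => ∀ p ∈ S, A p t)).card : ℕ) : ℝ) =
      ∑ r ∈ G, ∏ j, (((Ico (0 : ℤ) (Y j)).filter (fun t => t ≡ r j [ZMOD q])).card : ℝ) := by
    rw [h1]; push_cast; rfl
  have hx0 : (0 : ℝ) ≤ (q : ℝ) / Ym := by positivity
  have hx1 : (q : ℝ) / Ym ≤ 1 := by
    rw [div_le_one hYmr]
    exact_mod_cast hq
  have h3 : ∀ r ∈ G, |∏ j, (((Ico (0 : ℤ) (Y j)).filter (fun t => t ≡ r j [ZMOD q])).card : ℝ) -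
      ∏ j, ((Y j : ℝ) / q)| ≤ (∏ j, ((Y j : ℝ) / q)) * (2 ^ d * ((q : ℝ) / Ym)) := by
    intro r _
    have := prod_close (univ : Finset (Fin d))
      (fun j => (((Ico (0 : ℤ) (Y j)).filter (fun t => t ≡ r j [ZMOD q])).card : ℝ))
      (fun j => (Y j : ℝ) / q) ((q : ℝ) / Ym) hx0 (fun j _ => by positivity) (by
        intro j _
        refine (count_mod q hq0 (Y j) (r j)).trans ?_
        have h4 : (Ym : ℝ) ≤ Y j := by exact_mod_cast hY j
        have e : (q : ℝ) / Ym * ((Y j : ℝ) / q) = (Y j : ℝ) / Ym := by field_simp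
        rw [e, le_div_iff₀ hYmr]
        linarith)
    refine this.trans ?_
    apply mul_le_mul_of_nonneg_left
    · rw [card_univ, Fintype.card_fin]
      exact one_add_pow_sub d _ hx0 hx1
    · exact prod_nonneg fun j _ => by positivity
  have e1 : (∏ j, (Y j : ℝ)) * ∏ p ∈ S, ((((box (fun _ : Fin d => p)).filter (fun t => A p t)).card : ℝ) / (p : ℝ) ^ d)
      = G.card * ∏ j, ((Y j : ℝ) / q) := by
    have e2 : (q : ℝ) = ∏ p ∈ S, (p : ℝ) := by rw [hqdef]; push_cast; rfl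
    rw [hGcard, prod_div_distrib, prod_div_distrib, prod_const, card_univ, Fintype.card_fin]
    push_cast
    rw [e2, prod_pow]
    ring
  rw [h2, e1]
  have e3 : ∑ r ∈ G, ∏ j, (((Ico (0 : ℤ) (Y j)).filter (fun t => t ≡ r j [ZMOD q])).card : ℝ) -
      G.card * ∏ j, ((Y j : ℝ) / q) = ∑ r ∈ G, (∏ j, (((Ico (0 : ℤ) (Y j)).filter (fun t => t ≡ r j [ZMOD q])).card : ℝ) -
      ∏ j, ((Y j : ℝ) / q)) := by
    rw [sum_sub_distrib, sum_const, nsmul_eq_mul]
  rw [e3]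
  refine (abs_sum_le_sum_abs _ _).trans ((sum_le_sum h3).trans ?_)
  rw [sum_const, nsmul_eq_mul]
  have hGle : (G.card : ℝ) ≤ (q : ℝ) ^ d := by
    have : G.card ≤ (box (fun _ : Fin d => q)).card := card_filter_le _ _
    rw [card_box, prod_const, card_univ, Fintype.card_fin] at this
    exact_mod_cast this
  have hprod : ∏ j : Fin d, ((Y j : ℝ) / q) = (∏ j, (Y j : ℝ)) / (q : ℝ) ^ d := by
    rw [prod_div_distrib, prod_const, card_univ, Fintype.card_fin]
  rw [hprod]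
  have hYp : (0 : ℝ) ≤ ∏ j, (Y j : ℝ) := prod_nonneg fun j _ => by positivity
  have hqd : (0 : ℝ) < (q : ℝ) ^ d := by positivity
  calc (G.card : ℝ) * ((∏ j, (Y j : ℝ)) / (q : ℝ) ^ d * (2 ^ d * ((q : ℝ) / Ym)))
      ≤ (q : ℝ) ^ d * ((∏ j, (Y j : ℝ)) / (q : ℝ) ^ d * (2 ^ d * ((q : ℝ) / Ym))) := by
        apply mul_le_mul_of_nonneg_right hGle
        positivity
    _ = 2 ^ d * (q : ℝ) / Ym * ∏ j, (Y j : ℝ) := by
        field_simp

theorem t_COUNT : S_COUNT := t_COUNT' t_CRT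

end Pool.Agent.Run7.h13.PO
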