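import Pool.Agent.Run7.h385.PO.Stm

/-! Pieces CRT and COUNT of helper385's project PO. -/

set_option autoImplicit false

namespace Pool.Agent.Run7.h13.PO

open Finset hiding box
open Pool.Agent.Run7.h385.PO
open Pool.Agent.H373R2.T7

lemma mem_box {d : ℕ} (Y : Fin d → ℕ) (t : Fin d → ℤ) : t ∈ box Y ↔ ∀ j, 0 ≤ t j ∧ t j < Y j := by
  unfold box
  rw [Fintype.mem_piFinset]
  simp only [mem_Ico]

lemma card_box {d : ℕ} (Y : Fin d → ℕ) : (box Y).card = ∏ j, Y j := by
  unfold box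
  rw [Fintype.card_piFinset]
  apply prod_congr rfl
  intro j _
  simp

lemma crt_two {p q : ℕ} (h : Nat.Coprime p q) (hp : 0 < p) (hq : 0 < q) (a b : ℤ) :
    ∃ x : ℤ, (0 ≤ x ∧ x < ((p * q : ℕ) : ℤ)) ∧ x ≡ a [ZMOD p] ∧ x ≡ b [ZMOD q] := by
  obtain ⟨x, hx1, hx2⟩ : ∃ x : ℤ, x ≡ a [ZMOD p] ∧ x ≡ b [ZMOD q] := by
    have hc : IsCoprime (p : ℤ) (q : ℤ) := Nat.isCoprime_iff_coprime.2 h
    obtain ⟨u, v, huv⟩ := hc
    refine ⟨a * (v * q) + b * (u * p), ?_, ?_⟩
    · rw [Int.modEq_iff_dvd]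
      exact ⟨(a - b) * u, by linear_combination (-a) * huv⟩
    · rw [Int.modEq_iff_dvd]
      exact ⟨(b - a) * v, by linear_combination (-b) * huv⟩
  have hpq : (0 : ℤ) < ((p * q : ℕ) : ℤ) := by exact_mod_cast Nat.mul_pos hp hq
  refine ⟨x % ((p * q : ℕ) : ℤ), ⟨Int.emod_nonneg _ hpq.ne', Int.emod_lt_of_pos _ hpq⟩, ?_, ?_⟩
  · have h1 : x % ((p * q : ℕ) : ℤ) ≡ x [ZMOD ((p * q : ℕ) : ℤ)] := Int.mod_modEq _ _
    rw [Nat.cast_mul] at h1
    exact (h1.of_mul_right (q : ℤ)).trans hx1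
  · have h1 : x % ((p * q : ℕ) : ℤ) ≡ x [ZMOD ((p * q : ℕ) : ℤ)] := Int.mod_modEq _ _
    rw [Nat.cast_mul] at h1
    exact (h1.of_mul_left (p : ℤ)).trans hx2

theorem t_CRT : S_CRT := by
  intro d A _ S
  induction S using Finset.induction_on with
  | empty =>
    intro _ _
    simp only [prod_empty, notMem_empty, false_implies, implies_true, filter_true]
    rw [card_box]
    simp
  | insert p S hp ih =>
    intro hS hA
    have hpp := hS p (mem_insert_self _ _)
    have hS' : ∀ p' ∈ S, p'.Prime := fun p' h => hS p' (mem_insert_of_mem h)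
    have hA' : ∀ p' ∈ S, ∀ t t' : Fin d → ℤ, (∀ j, t j ≡ t' j [ZMOD p']) → A p' t → A p' t' :=
      fun p' h => hA p' (mem_insert_of_mem h)
    have hAp := hA p (mem_insert_self _ _)
    rw [prod_insert hp, prod_insert hp, ← ih hS' hA', ← card_product]
    set q := ∏ p' ∈ S, p' with hq
    have hq0 : 0 < q := prod_pos fun p' h => (hS' p' h).pos
    have hcop : Nat.Coprime p q := by
      rw [hq]
      apply Nat.Coprime.prod_right
      intro p' hp'
      rw [Nat.coprime_primes hpp (hS' p' hp')]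
      rintro rfl
      exact hp hp'
    have hdvd : ∀ p' ∈ S, (p' : ℤ) ∣ (q : ℤ) := by
      intro p' h
      exact Int.natCast_dvd_natCast.2 (dvd_prod_of_mem _ h)
    have hp0 : (p : ℤ) ≠ 0 := by exact_mod_cast hpp.ne_zero
    have hp0' : (0 : ℤ) < p := by exact_mod_cast hpp.pos
    have hqz : (q : ℤ) ≠ 0 := by exact_mod_cast hq0.ne'
    have hqz' : (0 : ℤ) < q := by exact_mod_cast hq0
    apply card_bij (fun t _ => ((fun j => t j % (p : ℤ)), (fun j => t j % (q : ℤ))))
    · intro t ht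
      rw [mem_filter, mem_box] at ht
      rw [mem_product, mem_filter, mem_filter, mem_box, mem_box]
      refine ⟨⟨fun j => ⟨Int.emod_nonneg _ hp0, Int.emod_lt_of_pos _ hp0'⟩, ?_⟩,
        ⟨fun j => ⟨Int.emod_nonneg _ hqz, Int.emod_lt_of_pos _ hqz'⟩, ?_⟩⟩
      · exact hAp t _ (fun j => (Int.mod_modEq _ _).symm) (ht.2 p (mem_insert_self _ _))
      · intro p' hp'
        exact hA' p' hp' t _ (fun j => ((Int.mod_modEq (t j) (q : ℤ)).symm).of_dvd (hdvd p' hp'))
          (ht.2 p' (mem_insert_of_mem hp'))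
    · intro t ht t' ht' h
      rw [mem_filter, mem_box] at ht ht'
      rw [Prod.mk.injEq] at h
      funext j
      have h1 : t j ≡ t' j [ZMOD p] := congrFun h.1 j
      have h2 : t j ≡ t' j [ZMOD q] := congrFun h.2 j
      have h3 : t j ≡ t' j [ZMOD ((p : ℤ) * (q : ℤ))] :=
        (Int.modEq_and_modEq_iff_modEq_mul (by simpa using hcop)).1 ⟨h1, h2⟩
      have h4 := ht.1 j
      have h5 := ht'.1 j
      rw [Nat.cast_mul] at h4 h5
      unfold Int.ModEq at h3
      rwa [Int.emod_eq_of_lt h4.1 h4.2, Int.emod_eq_of_lt h5.1 h5.2] at h3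
    · intro b hb
      rw [mem_product, mem_filter, mem_filter, mem_box, mem_box] at hb
      obtain ⟨⟨hb1, hb2⟩, ⟨hb3, hb4⟩⟩ := hb
      choose x hx1 hx2 hx3 using fun j => crt_two hcop hpp.pos hq0 (b.1 j) (b.2 j)
      refine ⟨x, ?_, ?_⟩
      · rw [mem_filter, mem_box]
        refine ⟨hx1, ?_⟩
        intro p' hp'
        rcases mem_insert.1 hp' with h | h
        · subst h
          exact hAp b.1 x (fun j => (hx2 j).symm) hb2
        · exact hA' p' h b.2 x (fun j => ((hx3 j).symm).of_dvd (hdvd p' h)) (hb4 p' h)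
      · apply Prod.ext
        · funext j
          have := hx2 j
          unfold Int.ModEq at this
          simp only
          rw [this, Int.emod_eq_of_lt (hb1 j).1 (hb1 j).2]
        · funext j
          have := hx3 j
          unfold Int.ModEq at this
          simp only
          rw [this, Int.emod_eq_of_lt (hb3 j).1 (hb3 j).2]

end Pool.Agent.Run7.h13.PO
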