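import Pool.Agent.Run7.h13.PO.COUNT

set_option autoImplicit false

namespace Pool.Agent.Run7.h13.PO

open Finset hiding box
open Pool.Agent.Run7.h385.PO
open Pool.Agent.H373R2.T7

lemma fiber_card {G H : Type} [AddGroup G] [AddGroup H] [Fintype G] [Fintype H] [DecidableEq H]
    (f : G →+ H) (hf : Function.Surjective f) (h : H) :
    (univ.filter (fun g => f g = h)).card * Fintype.card H = Fintype.card G := by
  have h1 : ∀ y : H, (univ.filter (fun g => f g = y)).card = (univ.filter (fun g => f g = h)).card :=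
    fun y => AddMonoidHom.card_fiber_eq_of_mem_range f (hf y) (hf h)
  have h2 := card_eq_sum_card_fiberwise (f := f) (s := univ) (t := univ) (fun x _ => mem_univ _)
  rw [card_univ] at h2
  rw [h2, sum_congr rfl (fun y _ => h1 y), sum_const, card_univ, smul_eq_mul, mul_comm]

lemma box_zmod (d p : ℕ) [NeZero p] (P : (Fin d → ZMod p) → Prop) [DecidablePred P] :
    ((box (fun _ : Fin d => p)).filter (fun t => P (fun j => ((t j : ℤ) : ZMod p)))).card = (univ.filter P).card := by
  apply card_bij (fun t _ => fun j => ((t j : ℤ) : ZMod p))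
  · intro t ht
    rw [mem_filter] at ht
    rw [mem_filter]
    exact ⟨mem_univ _, ht.2⟩
  · intro t ht t' ht' h
    rw [mem_filter, mem_box] at ht ht'
    funext j
    have h1 : ((t j : ℤ) : ZMod p) = ((t' j : ℤ) : ZMod p) := congrFun h j
    rw [ZMod.intCast_eq_intCast_iff] at h1
    unfold Int.ModEq at h1
    rwa [Int.emod_eq_of_lt (ht.1 j).1 (ht.1 j).2, Int.emod_eq_of_lt (ht'.1 j).1 (ht'.1 j).2] at h1
  · intro τ hτ
    rw [mem_filter] at hτ
    have e : (fun j => ((((τ j).val : ℕ) : ℤ) : ZMod p)) = τ := by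
      funext j
      rw [Int.cast_natCast, ZMod.natCast_zmod_val]
    refine ⟨fun j => ((τ j).val : ℕ), ?_, e⟩
    rw [mem_filter, mem_box]
    refine ⟨fun j => ⟨by positivity, by exact_mod_cast ZMod.val_lt (τ j)⟩, ?_⟩
    rw [e]
    exact hτ.2

/-- the functional `t ↦ ∑ t_j n^j` -/
def Lf (d p : ℕ) (n : ℕ) : (Fin d → ZMod p) →+ ZMod p where
  toFun τ := ∑ j : Fin d, τ j * (n : ZMod p) ^ (j : ℕ)
  map_zero' := by simp
  map_add' x y := by simp [add_mul, sum_add_distrib]

lemma Lf_apply (d p n : ℕ) (τ : Fin d → ZMod p) : Lf d p n τ = ∑ j : Fin d, τ j * (n : ZMod p) ^ (j : ℕ) := rfl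

lemma Lf_single (d p n : ℕ) (i : Fin d) (a : ZMod p) :
    Lf d p n (Pi.single i a) = a * (n : ZMod p) ^ (i : ℕ) := by
  rw [Lf_apply, sum_eq_single i]
  · simp
  · intro j _ hj
    rw [Pi.single_eq_of_ne hj, zero_mul]
  · intro h; exact absurd (mem_univ _) h

lemma Lf_surj (d p n : ℕ) (hd : 1 ≤ d) : Function.Surjective (Lf d p n) := by
  intro a
  refine ⟨Pi.single ⟨0, hd⟩ a, ?_⟩
  rw [Lf_single]
  simp

lemma Lf2_surj (d p n m : ℕ) [Fact p.Prime] (hd : 2 ≤ d) (hnm : (n : ZMod p) ≠ (m : ZMod p)) :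
    Function.Surjective ((Lf d p n).prod (Lf d p m)) := by
  rintro ⟨a, b⟩
  have hnm' : (n : ZMod p) - m ≠ 0 := sub_ne_zero.2 hnm
  refine ⟨Pi.single ⟨0, by omega⟩ ((b * n - a * m) / (n - m)) + Pi.single ⟨1, by omega⟩ ((a - b) / (n - m)), ?_⟩
  rw [AddMonoidHom.prod_apply, map_add, map_add, Lf_single, Lf_single, Lf_single, Lf_single]
  simp only [pow_zero, mul_one, pow_one]
  rw [Prod.mk.injEq]
  constructor
  · field_simp; ring
  · field_simp; ring

lemma N1 (d p n : ℕ) [Fact p.Prime] (hd : 1 ≤ d) (u W : ZMod p) (hW : W ≠ 0) :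
    ((univ.filter (fun τ : Fin d → ZMod p => u + W * Lf d p n τ = 0)).card : ℝ) = (p : ℝ) ^ d / p := by
  have h := fiber_card (Lf d p n) (Lf_surj d p n hd) (-u / W)
  have e : (univ.filter (fun τ : Fin d → ZMod p => u + W * Lf d p n τ = 0)) =
      univ.filter (fun τ : Fin d → ZMod p => Lf d p n τ = -u / W) := by
    apply filter_congr
    intro τ _
    rw [eq_div_iff hW, mul_comm W]
    constructor
    · intro h; linear_combination h
    · intro h; linear_combination h
  rw [e]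
  rw [ZMod.card, Fintype.card_fun, Fintype.card_fin, ZMod.card] at h
  have hp : (0 : ℝ) < p := by exact_mod_cast (Fact.out : p.Prime).pos
  rw [eq_div_iff hp.ne']
  exact_mod_cast h

lemma N2 (d p n m : ℕ) [Fact p.Prime] (hd : 2 ≤ d) (hnm : (n : ZMod p) ≠ (m : ZMod p)) (u v W : ZMod p) (hW : W ≠ 0) :
    ((univ.filter (fun τ : Fin d → ZMod p => u + W * Lf d p n τ = 0 ∧ v + W * Lf d p m τ = 0)).card : ℝ) =
      (p : ℝ) ^ d / p ^ 2 := by
  have h := fiber_card _ (Lf2_surj d p n m hd hnm) (-u / W, -v / W)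
  have e : (univ.filter (fun τ : Fin d → ZMod p => u + W * Lf d p n τ = 0 ∧ v + W * Lf d p m τ = 0)) =
      univ.filter (fun τ : Fin d → ZMod p => ((Lf d p n).prod (Lf d p m)) τ = (-u / W, -v / W)) := by
    apply filter_congr
    intro τ _
    rw [AddMonoidHom.prod_apply, Prod.mk.injEq, eq_div_iff hW, eq_div_iff hW, mul_comm W, mul_comm W]
    constructor
    · rintro ⟨h, h'⟩; exact ⟨by linear_combination h, by linear_combination h'⟩
    · rintro ⟨h, h'⟩; exact ⟨by linear_combination h, by linear_combination h'⟩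
  rw [e]
  rw [Fintype.card_prod, ZMod.card, Fintype.card_fun, Fintype.card_fin, ZMod.card] at h
  have hp : (0 : ℝ) < p := by exact_mod_cast (Fact.out : p.Prime).pos
  rw [eq_div_iff (by positivity), sq]
  exact_mod_cast h

lemma dvd_iff (d k p : ℕ) (n : Fin k → ℕ) (u : Fin k → ℤ) (W : ℕ) (t : Fin d → ℤ) (i : Fin k) :
    (p : ℤ) ∣ u i + ev W t (n i) ↔
      ((u i : ℤ) : ZMod p) + (W : ZMod p) * Lf d p (n i) (fun j => ((t j : ℤ) : ZMod p)) = 0 := by
  rw [← ZMod.intCast_zmod_eq_zero_iff_dvd, Lf_apply]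
  unfold ev
  push_cast
  rfl

lemma gg_eq (d : ℕ) {k : ℕ} (n : Fin k → ℕ) (u : Fin k → ℤ) (W p : ℕ) [NeZero p] :
    gg d n u W p = ((univ.filter (fun τ : Fin d → ZMod p => ∃ i, ((u i : ℤ) : ZMod p) +
      (W : ZMod p) * Lf d p (n i) τ = 0)).card : ℝ) / (p : ℝ) ^ d := by
  unfold gg
  congr 2
  rw [← box_zmod d p]
  congr 1
  apply filter_congr
  intro t _
  simp only [dvd_iff]

theorem t_LOC : S_LOC := by
  constructor
  · intro d k hd n u W p hp hW
    have : Fact p.Prime := ⟨hp⟩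
    have hWz : (W : ZMod p) ≠ 0 := by
      rw [Ne, ZMod.natCast_eq_zero_iff]; exact hW
    have hpr : (0 : ℝ) < p := by exact_mod_cast hp.pos
    have hpd : (0 : ℝ) < (p : ℝ) ^ d := by positivity
    rw [gg_eq]
    refine ⟨by positivity, ?_, ?_⟩
    · rw [div_le_one hpd]
      have := card_filter_le (univ : Finset (Fin d → ZMod p)) (fun τ : Fin d → ZMod p => ∃ i, ((u i : ℤ) : ZMod p) +
        (W : ZMod p) * Lf d p (n i) τ = 0)
      rw [card_univ, Fintype.card_fun, Fintype.card_fin, ZMod.card] at this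
      exact_mod_cast this
    · rw [div_le_iff₀ hpd]
      have h1 : (univ.filter (fun τ : Fin d → ZMod p => ∃ i, ((u i : ℤ) : ZMod p) +
        (W : ZMod p) * Lf d p (n i) τ = 0)) ⊆ univ.biUnion (fun i : Fin k => univ.filter (fun τ : Fin d → ZMod p =>
          ((u i : ℤ) : ZMod p) + (W : ZMod p) * Lf d p (n i) τ = 0)) := by
        intro τ hτ
        rw [mem_filter] at hτ
        obtain ⟨i, hi⟩ := hτ.2
        rw [mem_biUnion]
        exact ⟨i, mem_univ _, by rw [mem_filter]; exact ⟨mem_univ _, hi⟩⟩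
      have h2 := (card_le_card h1).trans card_biUnion_le
      have h3 : ((univ.filter (fun τ : Fin d → ZMod p => ∃ i, ((u i : ℤ) : ZMod p) +
        (W : ZMod p) * Lf d p (n i) τ = 0)).card : ℝ) ≤ ∑ i : Fin k, ((univ.filter (fun τ : Fin d → ZMod p =>
          ((u i : ℤ) : ZMod p) + (W : ZMod p) * Lf d p (n i) τ = 0)).card : ℝ) := by exact_mod_cast h2
      refine h3.trans ?_
      rw [sum_congr rfl (fun i _ => N1 d p (n i) hd ((u i : ℤ) : ZMod p) (W : ZMod p) hWz), sum_const, card_univ,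
        Fintype.card_fin, nsmul_eq_mul]
      apply le_of_eq
      ring
  · intro d k hd n u W p hp hW hn
    have : Fact p.Prime := ⟨hp⟩
    have hWz : (W : ZMod p) ≠ 0 := by
      rw [Ne, ZMod.natCast_eq_zero_iff]; exact hW
    have hpr : (0 : ℝ) < p := by exact_mod_cast hp.pos
    have hpd : (0 : ℝ) < (p : ℝ) ^ d := by positivity
    have hnz : ∀ i j, i ≠ j → (n i : ZMod p) ≠ (n j : ZMod p) := by
      intro i j hij h
      apply hn i j hij
      rw [← ZMod.intCast_zmod_eq_zero_iff_dvd]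
      push_cast
      rw [h, sub_self]
    rw [gg_eq, le_div_iff₀ hpd]
    classical
    set P : Fin k → (Fin d → ZMod p) → Prop := fun i τ => ((u i : ℤ) : ZMod p) + (W : ZMod p) * Lf d p (n i) τ = 0 with hP
    have hpt : ∀ τ : Fin d → ZMod p, 2 * (∑ i : Fin k, (if P i τ then (1 : ℝ) else 0)) -
        ∑ i : Fin k, ∑ j : Fin k, (if P i τ ∧ P j τ then (1 : ℝ) else 0) ≤ if (∃ i, P i τ) then (1 : ℝ) else 0 := by
      intro τ
      have e : ∑ i : Fin k, ∑ j : Fin k, (if P i τ ∧ P j τ then (1 : ℝ) else 0) =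
          (∑ i : Fin k, (if P i τ then (1 : ℝ) else 0)) ^ 2 := by
        rw [sq, sum_mul_sum]
        apply sum_congr rfl
        intro i _
        apply sum_congr rfl
        intro j _
        by_cases h1 : P i τ <;> by_cases h2 : P j τ <;> simp [h1, h2]
      rw [e]
      by_cases h : ∃ i, P i τ
      · rw [if_pos h]
        nlinarith [sq_nonneg ((∑ i : Fin k, (if P i τ then (1 : ℝ) else 0)) - 1)]
      · rw [if_neg h]
        push Not at h
        have : ∑ i : Fin k, (if P i τ then (1 : ℝ) else 0) = 0 := by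
          apply sum_eq_zero
          intro i _
          rw [if_neg (h i)]
        rw [this]; simp
    have hsum := sum_le_sum (fun τ (_ : τ ∈ (univ : Finset (Fin d → ZMod p))) => hpt τ)
    rw [sum_sub_distrib, ← mul_sum, sum_comm] at hsum
    have e1 : ∀ i : Fin k, ∑ τ : Fin d → ZMod p, (if P i τ then (1 : ℝ) else 0) = (p : ℝ) ^ d / p := by
      intro i
      rw [sum_boole]
      exact N1 d p (n i) (by omega) _ _ hWz
    have e2 : ∑ τ : Fin d → ZMod p, ∑ i : Fin k, ∑ j : Fin k, (if P i τ ∧ P j τ then (1 : ℝ) else 0) =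
        ∑ i : Fin k, ∑ j : Fin k, ∑ τ : Fin d → ZMod p, (if P i τ ∧ P j τ then (1 : ℝ) else 0) := by
      rw [sum_comm]
      apply sum_congr rfl
      intro i _
      rw [sum_comm]
    have e3 : ∀ i j : Fin k, ∑ τ : Fin d → ZMod p, (if P i τ ∧ P j τ then (1 : ℝ) else 0) ≤
        (if i = j then (p : ℝ) ^ d / p else 0) + (p : ℝ) ^ d / p ^ 2 := by
      intro i j
      by_cases hij : i = j
      · subst hij
        rw [if_pos rfl]
        simp only [and_self]
        rw [e1 i]
        have : (0 : ℝ) ≤ (p : ℝ) ^ d / p ^ 2 := by positivity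
        linarith
      · rw [if_neg hij, sum_boole, zero_add]
        exact le_of_eq (N2 d p (n i) (n j) hd (hnz i j hij) _ _ _ hWz)
    have e4 : ∑ i : Fin k, ∑ j : Fin k, ∑ τ : Fin d → ZMod p, (if P i τ ∧ P j τ then (1 : ℝ) else 0) ≤
        k * ((p : ℝ) ^ d / p) + k ^ 2 * ((p : ℝ) ^ d / p ^ 2) := by
      calc _ ≤ ∑ i : Fin k, ∑ j : Fin k, ((if i = j then (p : ℝ) ^ d / p else 0) + (p : ℝ) ^ d / p ^ 2) :=
            sum_le_sum fun i _ => sum_le_sum fun j _ => e3 i j
        _ = _ := by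
            simp only [sum_add_distrib, sum_ite_eq, mem_univ, if_true, sum_const, card_univ, Fintype.card_fin, nsmul_eq_mul]
            ring
    rw [e2, sum_congr rfl (fun i _ => e1 i), sum_const, card_univ, Fintype.card_fin, nsmul_eq_mul, sum_boole] at hsum
    have e5 : ((k : ℝ) / p - (k : ℝ) ^ 2 / (p : ℝ) ^ 2) * (p : ℝ) ^ d =
        k * ((p : ℝ) ^ d / p) - k ^ 2 * ((p : ℝ) ^ d / p ^ 2) := by ring
    rw [e5]
    linarith

end Pool.Agent.Run7.h13.PO
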