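import Pool.Agent.Run7.h13.PO.PROD

set_option autoImplicit false

namespace Pool.Agent.Run7.h13.PO

open Finset hiding box
open Pool.Agent.Run7.h385.PO
open Pool.Agent.H373R2.T7

lemma tendsto_log_pow_sqrt (A : ℕ) :
    Filter.Tendsto (fun X : ℕ => Real.log X ^ A / Real.sqrt X) Filter.atTop (nhds 0) := by
  have h1 : Filter.Tendsto (fun x : ℝ => Real.log x ^ (2 * A) / x) Filter.atTop (nhds 0) := by
    have := (Real.isLittleO_pow_log_id_atTop (n := 2 * A)).tendsto_div_nhds_zero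
    simpa using this
  have h2 := (h1.comp (tendsto_natCast_atTop_atTop (R := ℝ))).sqrt
  rw [Real.sqrt_zero] at h2
  refine h2.congr' ?_
  filter_upwards [Filter.eventually_ge_atTop 1] with X hX
  have hX1 : (1 : ℝ) ≤ X := by exact_mod_cast hX
  have hL : 0 ≤ Real.log X := Real.log_nonneg hX1
  simp only [Function.comp_apply]
  rw [Real.sqrt_div (by positivity), mul_comm 2 A, pow_mul, Real.sqrt_sq (by positivity)]

lemma prod_lamz {d k : ℕ} (z w : ℕ) (W : ℕ) (n : Fin k → ℕ) (u : Fin k → ℤ) 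
    (hW : ∀ p ∈ pz w, p ∣ W) (hu : ∀ i, IsCoprime (u i) (W : ℤ)) (t : Fin d → ℤ) :
    ∏ i, lamz z (u i + ev W t (n i)).natAbs =
      if (∀ p ∈ (pz z).filter (fun p => w < p), ¬ ∃ i, (p : ℤ) ∣ u i + ev W t (n i)) then ((Vz z)⁻¹) ^ k else 0 := by
  split_ifs with h
  · have h1 : ∀ i : Fin k, lamz z (u i + ev W t (n i)).natAbs = (Vz z)⁻¹ := by
      intro i
      unfold lamz
      rw [if_pos]
      intro p hp hdv
      rw [← Int.natCast_dvd] at hdv
      rw [mem_pz] at hp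
      rcases le_or_gt p w with hpw | hpw
      · have hpW : (p : ℤ) ∣ (W : ℤ) := Int.natCast_dvd_natCast.2 (hW p (mem_pz.2 ⟨hpw, hp.2⟩))
        have h2 : (p : ℤ) ∣ ev W t (n i) := by
          unfold ev
          exact Dvd.dvd.mul_right hpW _
        have h3 : (p : ℤ) ∣ u i := (dvd_add_left h2).1 hdv
        have h4 := (hu i).isUnit_of_dvd' h3 hpW
        have h5 : Prime (p : ℤ) := Nat.prime_iff_prime_int.1 hp.2
        exact h5.not_isUnit h4
      · exact h p (mem_filter.2 ⟨mem_pz.2 hp, hpw⟩) ⟨i, hdv⟩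
    rw [prod_congr rfl (fun i _ => h1 i), prod_const, card_univ, Fintype.card_fin]
  · push Not at h
    obtain ⟨p, hp, i, hi⟩ := h
    apply prod_eq_zero (mem_univ i)
    unfold lamz
    rw [if_neg]
    intro h2
    exact h2 p (mem_filter.1 hp).1 (Int.natCast_dvd.1 hi)

theorem t_MODEL' (hCOUNT : S_COUNT) (hLOC : S_LOC) (hPROD : S_PROD) : S_MODEL := by
  intro d k C E hd ε hε
  obtain ⟨N1, hN1⟩ := hPROD d k C hd (ε / 2) (by linarith)
  obtain ⟨N2, hN2⟩ := choice k E (E * k + 1) 4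
  have ev1 : ∀ᶠ X : ℕ in Filter.atTop,
      2 ^ d * (Real.log X ^ (E * k + C) / Real.sqrt X) + 2 / Real.log X ≤ ε / 2 := by
    have h1 := (tendsto_log_pow_sqrt (E * k + C)).const_mul (2 ^ d)
    have h2 : Filter.Tendsto (fun X : ℕ => 2 / Real.log X) Filter.atTop (nhds 0) :=
      (Real.tendsto_log_atTop.comp tendsto_natCast_atTop_atTop).const_div_atTop _
    have h3 := h1.add h2
    rw [mul_zero, add_zero] at h3
    exact h3.eventually (ge_mem_nhds (by linarith))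
  have ev2 : ∀ᶠ X : ℕ in Filter.atTop, Real.log X ^ C / Real.sqrt X ≤ 1 :=
    (tendsto_log_pow_sqrt C).eventually (ge_mem_nhds (by norm_num))
  obtain ⟨X0, hX0⟩ := Filter.eventually_atTop.1 (ev1.and (ev2.and (Filter.eventually_ge_atTop (N1 + N2 + 3))))
  refine ⟨X0, fun X hX z hz1 hwz hzE n hn hnC u hu Y hY => ?_⟩
  obtain ⟨hA, hB, hX3⟩ := hX0 X hX
  have hprod := hN1 X (by omega) z hwz n hn hnC u
  obtain ⟨r, hr1, hr2, -⟩ := hN2 X (by omega) z hzE
  set w := ww X with hw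
  set W := WW X with hW
  set L := Real.log X with hL
  have hX3' : (3 : ℝ) ≤ X := by exact_mod_cast (by omega : 3 ≤ X)
  have hXpos : (0 : ℝ) < X := by linarith
  have hL1 : 1 ≤ L := by
    rw [hL, Real.le_log_iff_exp_le (by linarith)]
    exact Real.exp_one_lt_three.le.trans hX3'
  have hL0 : 0 < L := by linarith
  set s := Real.sqrt X with hs
  have hs0 : 0 < s := Real.sqrt_pos.2 hXpos
  have hss : s ^ 2 = X := Real.sq_sqrt hXpos.le
  set P : ℝ := ∏ j, (Y j : ℝ) with hP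
  have hP0 : 0 ≤ P := prod_nonneg fun _ _ => by positivity
  set x : ℝ := ((z : ℝ) + 1) ^ r with hx
  have hx1 : 1 ≤ x := one_le_pow₀ (by
    have : (0 : ℝ) ≤ z := by positivity
    linarith)
  have hx2 : x ^ 2 ≤ s := by
    have h1 : (x ^ 2) ^ 2 ≤ s ^ 2 := by
      rw [hss, ← pow_mul]
      exact hr2
    exact (sq_le_sq₀ (by positivity) hs0.le).1 h1
  set Ym := ⌈(X : ℝ) / L ^ C⌉₊ with hYm
  have hYmle : ∀ j, Ym ≤ Y j := fun j => Nat.ceil_le.2 (hY j)
  have hYmge : (X : ℝ) / L ^ C ≤ Ym := Nat.le_ceil _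
  have hLC : 0 < L ^ C := by positivity
  have hsX : s ≤ (X : ℝ) / L ^ C := by
    rw [le_div_iff₀ hLC]
    rw [div_le_one hs0] at hB
    calc s * L ^ C ≤ s * s := mul_le_mul_of_nonneg_left hB hs0.le
      _ = X := by rw [← sq, hss]
  have hYm0 : (0 : ℝ) < Ym := lt_of_lt_of_le (lt_of_lt_of_le hs0 hsX) hYmge
  have hxYm : x ≤ Ym := by
    have : x ≤ x ^ 2 := by nlinarith
    linarith
  set T := (pz z).filter (fun p => w < p) with hT
  have hTz : T ⊆ pz z := filter_subset _ _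
  have hTm : ∀ p ∈ T, p.Prime ∧ w < p ∧ p ≤ z := by
    intro p hp
    rw [hT, mem_filter, mem_pz] at hp
    exact ⟨hp.1.2, hp.2, hp.1.1⟩
  have hpzW : ∀ p ∈ pz w, p ∣ W := by
    intro p hp
    rw [hW]
    unfold WW
    exact dvd_prod_of_mem _ hp
  have hpW : ∀ p ∈ T, ¬ p ∣ W := by
    intro p hp h
    rw [hW] at h
    unfold WW at h
    rw [(hTm p hp).1.prime.dvd_finsetProd_iff] at h
    obtain ⟨q, hq, hpq⟩ := h
    rw [mem_pz] at hq
    have := Nat.le_of_dvd hq.2.pos hpq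
    have h2 := (hTm p hp).2.1
    omega
  have hg : ∀ p ∈ T, 0 ≤ gg d n u W p ∧ gg d n u W p ≤ 1 ∧ gg d n u W p ≤ (k : ℝ) / p :=
    fun p hp => hLOC.1 d k (by omega) n u W p (hTm p hp).1 (hpW p hp)
  have hR : ∀ S ⊆ T, S.card ≤ r →
      |∑ t ∈ box Y with ∀ p ∈ S, ∃ i, (p : ℤ) ∣ u i + ev W t (n i), (1 : ℝ) - P * ∏ p ∈ S, gg d n u W p| ≤
        2 ^ d * x / Ym * P := by
    intro S hS hSr
    have hle : ∏ p ∈ S, p ≤ (z + 1) ^ r := prod_le_pow S z r (hS.trans hTz) hSr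
    have hle' : ((∏ p ∈ S, p : ℕ) : ℝ) ≤ x := by
      rw [hx]; exact_mod_cast hle
    have h1 := hCOUNT d (fun p t => ∃ i, (p : ℤ) ∣ u i + ev W t (n i)) S (fun p hp => (hTm p (hS hp)).1) (by
      rintro p hp t t' htt ⟨i, hi⟩
      refine ⟨i, ?_⟩
      have h2 : ev W t (n i) ≡ ev W t' (n i) [ZMOD p] := by
        unfold ev
        apply Int.ModEq.mul_left
        apply Int.ModEq.sum
        intro j _
        exact (htt j).mul_right _
      have h3 : u i + ev W t (n i) ≡ u i + ev W t' (n i) [ZMOD p] := h2.add_left _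
      exact (Int.ModEq.dvd_iff h3).1 hi) Y Ym hYmle (by
        have : ((∏ p ∈ S, p : ℕ) : ℝ) ≤ Ym := hle'.trans hxYm
        exact_mod_cast this)
    rw [sum_const, nsmul_eq_mul, mul_one]
    refine h1.trans ?_
    apply mul_le_mul_of_nonneg_right _ hP0
    apply div_le_div_of_nonneg_right _ hYm0.le
    exact mul_le_mul_of_nonneg_left hle' (by positivity)
  have hsieve := sieve_gen' (box Y) (fun _ => (1 : ℝ)) (fun _ _ => zero_le_one)
    (fun p t => ∃ i, (p : ℤ) ∣ u i + ev W t (n i)) T (gg d n u W) (fun p hp => ⟨(hg p hp).1, (hg p hp).2.1⟩)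
    P hP0 (fun _ => 2 ^ d * x / Ym * P) r hR
  rw [sum_const, nsmul_eq_mul, mul_one] at hsieve
  set N := ((box Y).filter (fun t => ∀ p ∈ T, ¬ ∃ i, (p : ℤ) ∣ u i + ev W t (n i))).card with hN
  have hmain : ∑ t ∈ box Y, ∏ i, lamz z (u i + ev W t (n i)).natAbs = ((Vz z)⁻¹) ^ k * N := by
    rw [sum_congr rfl (fun t _ => prod_lamz z w W n u hpzW hu t), ← sum_filter, sum_const, nsmul_eq_mul, mul_comm]
  have herr : ∑ j ∈ range (r + 1), ∑ S ∈ T.powersetCard j, (2 ^ d * x / Ym * P) + 2 * P * es (gg d n u W) T r ≤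
      P * (2 ^ d * (L ^ C / s) + 2 / L ^ (E * k + 1)) := by
    have e1 : ∑ j ∈ range (r + 1), ∑ S ∈ T.powersetCard j, (2 ^ d * x / Ym * P) =
        ((∑ j ∈ range (r + 1), (T.powersetCard j).card : ℕ) : ℝ) * (2 ^ d * x / Ym * P) := by
      push_cast
      rw [sum_mul]
      apply sum_congr rfl
      intro j _
      rw [sum_const, nsmul_eq_mul]
    have e2 : ((∑ j ∈ range (r + 1), (T.powersetCard j).card : ℕ) : ℝ) ≤ x := by
      refine (card_small T r).trans ?_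
      rw [hx]
      apply pow_le_pow_left₀ (by positivity)
      have : T.card ≤ z := (card_le_card hTz).trans (card_pz_le z)
      have : (T.card : ℝ) ≤ z := by exact_mod_cast this
      linarith
    have e3 : es (gg d n u W) T r ≤ 1 / L ^ (E * k + 1) := by
      refine (es_le (fun p hp => (hg p hp).1) r).trans (le_trans ?_ hr1)
      apply Real.exp_le_exp.2
      have h1 : ∑ p ∈ T, gg d n u W p ≤ k * (1 + Real.log z) := by
        calc ∑ p ∈ T, gg d n u W p ≤ ∑ p ∈ T, (k : ℝ) * (1 / p) := sum_le_sum fun p hp => by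
              rw [mul_one_div]; exact (hg p hp).2.2
          _ = k * ∑ p ∈ T, (1 / (p : ℝ)) := by rw [mul_sum]
          _ ≤ k * ∑ p ∈ pz z, (1 / (p : ℝ)) := by
              apply mul_le_mul_of_nonneg_left _ (by positivity)
              exact sum_le_sum_of_subset_of_nonneg hTz (fun _ _ _ => by positivity)
          _ ≤ k * (1 + Real.log z) := mul_le_mul_of_nonneg_left (sum_pz_le z) (by positivity)
      linarith
    have e4 : x * (2 ^ d * x / Ym * P) ≤ P * (2 ^ d * (L ^ C / s)) := by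
      have h1 : x ^ 2 / Ym ≤ L ^ C / s := by
        rw [div_le_div_iff₀ hYm0 hs0]
        have h2 : s * s ≤ L ^ C * Ym := by
          have h3 : (X : ℝ) ≤ Ym * L ^ C := (div_le_iff₀ hLC).1 hYmge
          rw [← sq, hss, mul_comm]; exact h3
        have h4 : x ^ 2 * s ≤ s * s := mul_le_mul_of_nonneg_right hx2 hs0.le
        linarith
      have e : x * (2 ^ d * x / Ym * P) = P * (2 ^ d * (x ^ 2 / Ym)) := by ring
      rw [e]
      apply mul_le_mul_of_nonneg_left _ hP0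
      exact mul_le_mul_of_nonneg_left h1 (by positivity)
    have e5 : ((∑ j ∈ range (r + 1), (T.powersetCard j).card : ℕ) : ℝ) * (2 ^ d * x / Ym * P) ≤ x * (2 ^ d * x / Ym * P) :=
      mul_le_mul_of_nonneg_right e2 (by positivity)
    rw [e1]
    have e6 : 2 * P * es (gg d n u W) T r ≤ 2 * P * (1 / L ^ (E * k + 1)) := mul_le_mul_of_nonneg_left e3 (by positivity)
    have e7 : P * (2 ^ d * (L ^ C / s) + 2 / L ^ (E * k + 1)) = P * (2 ^ d * (L ^ C / s)) + 2 * P * (1 / L ^ (E * k + 1)) := by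
      ring
    rw [e7]
    linarith
  have hVz := Vz_pos z
  have hVw := Vz_pos w
  have hVi : ((Vz z)⁻¹) ^ k ≤ L ^ (E * k) := by
    rw [pow_mul]
    apply pow_le_pow_left₀ (inv_pos.2 hVz).le
    exact (Vz_inv_le z hz1).trans hzE
  have hVi0 : 0 < ((Vz z)⁻¹) ^ k := by positivity
  have hone : 1 ≤ ((Vz w)⁻¹) ^ k := one_le_pow₀ ((one_le_inv₀ hVw).2 (Vz_le_one w))
  set Pg := ∏ p ∈ T, (1 - gg d n u W p) with hPg
  have t1 : |(N : ℝ) - P * Pg| ≤ P * (2 ^ d * (L ^ C / s) + 2 / L ^ (E * k + 1)) := hsieve.trans herr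
  have t2 : |Pg - (Vz z / Vz w) ^ k| ≤ ε / 2 * (Vz z / Vz w) ^ k := hprod
  rw [hmain]
  have e : ((Vz z)⁻¹) ^ k * N - P * ((Vz w)⁻¹) ^ k =
      ((Vz z)⁻¹) ^ k * ((N : ℝ) - P * Pg) + P * (((Vz z)⁻¹) ^ k * (Pg - (Vz z / Vz w) ^ k)) := by
    have h1 : ((Vz z)⁻¹) ^ k * (Vz z / Vz w) ^ k = ((Vz w)⁻¹) ^ k := by
      rw [← mul_pow]
      congr 1
      field_simp
    linear_combination P * h1
  rw [e]
  refine (abs_add_le _ _).trans ?_
  rw [abs_mul, abs_mul, abs_mul, abs_of_pos hVi0, abs_of_nonneg hP0]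
  have a1 : ((Vz z)⁻¹) ^ k * |(N : ℝ) - P * Pg| ≤ ε / 2 * (P * ((Vz w)⁻¹) ^ k) := by
    calc ((Vz z)⁻¹) ^ k * |(N : ℝ) - P * Pg| ≤ L ^ (E * k) * (P * (2 ^ d * (L ^ C / s) + 2 / L ^ (E * k + 1))) :=
          mul_le_mul hVi t1 (abs_nonneg _) (by positivity)
      _ = P * (2 ^ d * (L ^ (E * k + C) / s) + 2 / L) := by
          rw [pow_add L (E * k) C, pow_succ]
          field_simp
      _ ≤ P * (ε / 2) := mul_le_mul_of_nonneg_left hA hP0
      _ = ε / 2 * (P * 1) := by ring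
      _ ≤ ε / 2 * (P * ((Vz w)⁻¹) ^ k) := by
          apply mul_le_mul_of_nonneg_left _ (by linarith)
          exact mul_le_mul_of_nonneg_left hone hP0
  have a2 : P * (((Vz z)⁻¹) ^ k * |Pg - (Vz z / Vz w) ^ k|) ≤ ε / 2 * (P * ((Vz w)⁻¹) ^ k) := by
    have h1 : ((Vz z)⁻¹) ^ k * |Pg - (Vz z / Vz w) ^ k| ≤ ((Vz z)⁻¹) ^ k * (ε / 2 * (Vz z / Vz w) ^ k) :=
      mul_le_mul_of_nonneg_left t2 hVi0.le
    have h2 : ((Vz z)⁻¹) ^ k * (ε / 2 * (Vz z / Vz w) ^ k) = ε / 2 * ((Vz w)⁻¹) ^ k := by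
      have h1 : ((Vz z)⁻¹) ^ k * (Vz z / Vz w) ^ k = ((Vz w)⁻¹) ^ k := by
        rw [← mul_pow]
        congr 1
        field_simp
      linear_combination (ε / 2) * h1
    rw [h2] at h1
    have h3 := mul_le_mul_of_nonneg_left h1 hP0
    linarith
  linarith

theorem t_MODEL : S_MODEL := t_MODEL' t_COUNT t_LOC t_PROD

end Pool.Agent.Run7.h13.PO
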