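import Pool.Agent.Run7.h13.PO.LOC

set_option autoImplicit false

namespace Pool.Agent.Run7.h13.PO

open Finset hiding box
open Pool.Agent.Run7.h385.PO
open Pool.Agent.H373R2.T7

lemma ww_tendsto : Filter.Tendsto ww Filter.atTop Filter.atTop := by
  have h1 : Filter.Tendsto (fun X : ℕ => Real.log (Real.log X) / 4) Filter.atTop Filter.atTop :=
    (Real.tendsto_log_atTop.comp (Real.tendsto_log_atTop.comp tendsto_natCast_atTop_atTop)).atTop_div_const
      (by norm_num)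
  exact tendsto_nat_floor_atTop.comp h1

lemma Vz_split (w z : ℕ) (h : w ≤ z) :
    Vz z = (∏ p ∈ (pz z).filter (fun p => w < p), (1 - 1 / (p : ℝ))) * Vz w := by
  unfold Vz
  rw [← prod_filter_mul_prod_filter_not (pz z) (fun p => w < p)]
  congr 1
  apply prod_congr _ (fun _ _ => rfl)
  ext p
  rw [mem_filter, mem_pz, mem_pz, not_lt]
  constructor
  · rintro ⟨⟨_, h2⟩, h3⟩; exact ⟨h3, h2⟩
  · rintro ⟨h1, h2⟩; exact ⟨⟨h1.trans h, h2⟩, h1⟩

lemma Vz_ratio (w z : ℕ) (h : w ≤ z) :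
    Vz z / Vz w = ∏ p ∈ (pz z).filter (fun p => w < p), (1 - 1 / (p : ℝ)) := by
  rw [div_eq_iff (Vz_pos w).ne']
  exact Vz_split w z h

lemma sum_bad (w z : ℕ) (hw : 2 ≤ w) (m : ℤ) (hm : m ≠ 0) (M : ℝ) (hM : (m.natAbs : ℝ) ≤ M) :
    ∑ p ∈ (pz z).filter (fun p => w < p), (if (p : ℤ) ∣ m then 1 / (p : ℝ) else 0) ≤
      Real.log M / Real.log w / w := by
  rw [← sum_filter]
  set T := ((pz z).filter (fun p => w < p)).filter (fun p => ((p : ℕ) : ℤ) ∣ m) with hT
  have hw0 : (0 : ℝ) < w := by exact_mod_cast (by omega : 0 < w)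
  have hlw : 0 < Real.log w := Real.log_pos (by exact_mod_cast hw)
  have hTm : ∀ p ∈ T, p.Prime ∧ w < p ∧ p ∣ m.natAbs := by
    intro p hp
    rw [hT, mem_filter, mem_filter, mem_pz] at hp
    exact ⟨hp.1.1.2, hp.1.2, Int.natCast_dvd.1 hp.2⟩
  have h1 : ∑ p ∈ T, 1 / (p : ℝ) ≤ T.card * (1 / (w : ℝ)) := by
    rw [← nsmul_eq_mul]
    apply sum_le_card_nsmul
    intro p hp
    apply one_div_le_one_div_of_le hw0
    exact_mod_cast (hTm p hp).2.1.le
  have h2 : w ^ T.card ≤ m.natAbs := by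
    have h3 : ∏ p ∈ T, p ∣ m.natAbs :=
      Finset.prod_primes_dvd _ (fun p hp => (hTm p hp).1.prime) (fun p hp => (hTm p hp).2.2)
    have h4 : ∏ p ∈ T, p ≤ m.natAbs := Nat.le_of_dvd (Int.natAbs_pos.2 hm) h3
    refine le_trans ?_ h4
    rw [← prod_const]
    exact prod_le_prod' fun p hp => (hTm p hp).2.1.le
  have h5 : (T.card : ℝ) * Real.log w ≤ Real.log M := by
    rw [← Real.log_pow]
    apply Real.log_le_log (by positivity)
    refine le_trans ?_ hM
    exact_mod_cast h2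
  refine h1.trans ?_
  rw [mul_one_div]
  apply div_le_div_of_nonneg_right _ hw0.le
  rw [le_div_iff₀ hlw]
  exact h5

lemma one_sub_pow_le (k : ℕ) (x : ℝ) (hx : 0 ≤ x) (hx1 : x ≤ 1) :
    (1 - x) ^ k ≤ 1 - k * x + k ^ 2 * x ^ 2 := by
  induction k with
  | zero => simp
  | succ k ih =>
    rw [pow_succ]
    have h1 : (1 - x) ^ k * (1 - x) ≤ (1 - k * x + k ^ 2 * x ^ 2) * (1 - x) :=
      mul_le_mul_of_nonneg_right ih (by linarith)
    refine h1.trans ?_
    push_cast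
    have h2 : 0 ≤ (k : ℝ) ^ 2 * x ^ 3 := by positivity
    have h3 : 0 ≤ (k : ℝ) * x ^ 2 := by positivity
    nlinarith [sq_nonneg x]

lemma one_sub_pow_ge (k : ℕ) (x : ℝ) (hx1 : x ≤ 1) : 1 - k * x ≤ (1 - x) ^ k := by
  have := one_add_mul_le_pow (by linarith : (-2 : ℝ) ≤ -x) k
  have e : (1 : ℝ) + k * (-x) = 1 - k * x := by ring
  rw [e, ← sub_eq_add_neg] at this
  exact this

theorem t_PROD' (hLOC : S_LOC) : S_PROD := by
  intro d k C hd ε hε
  have hη : 0 < Real.log (1 + ε) := Real.log_pos (by linarith)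
  have hlim : Filter.Tendsto (fun w : ℕ => 2 * (k : ℝ) ^ 2 / (w : ℝ) + 16 * (k : ℝ) ^ 3 * C / Real.log w)
      Filter.atTop (nhds 0) := by
    have h1 : Filter.Tendsto (fun w : ℕ => 2 * (k : ℝ) ^ 2 / (w : ℝ)) Filter.atTop (nhds 0) :=
      tendsto_natCast_atTop_atTop.const_div_atTop _
    have h2 : Filter.Tendsto (fun w : ℕ => 16 * (k : ℝ) ^ 3 * C / Real.log w) Filter.atTop (nhds 0) :=
      (Real.tendsto_log_atTop.comp tendsto_natCast_atTop_atTop).const_div_atTop _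
    simpa using h1.add h2
  have hev := (hlim.comp ww_tendsto).eventually (ge_mem_nhds hη)
  have hev2 := ww_tendsto.eventually (Filter.eventually_ge_atTop (2 * k + 2))
  obtain ⟨X0, hX0⟩ := Filter.eventually_atTop.1 (hev.and (hev2.and (Filter.eventually_ge_atTop 3)))
  refine ⟨X0, fun X hX z hz n hn hnC u => ?_⟩
  obtain ⟨hA, hB, hX3⟩ := hX0 X hX
  set w := ww X with hw
  set W := WW X with hW
  set L := Real.log X with hL
  have hX3' : (3 : ℝ) ≤ X := by exact_mod_cast hX3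
  have hL1 : 1 ≤ L := by
    rw [hL, Real.le_log_iff_exp_le (by linarith)]
    exact Real.exp_one_lt_three.le.trans hX3'
  have hlogL : Real.log L ≤ 8 * w := by
    have h1 : Real.log L / 4 < w + 1 := by
      rw [hw]; unfold ww; exact Nat.lt_floor_add_one _
    have h2 : (1 : ℝ) ≤ w := by exact_mod_cast (by omega : 1 ≤ w)
    linarith
  have hw2 : 2 ≤ w := by omega
  have hw0 : (0 : ℝ) < w := by exact_mod_cast (by omega : 0 < w)
  have hlw : 0 < Real.log w := Real.log_pos (by exact_mod_cast hw2)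
  set T := (pz z).filter (fun p => w < p) with hT
  have hTm : ∀ p ∈ T, p.Prime ∧ w < p ∧ p ≤ z := by
    intro p hp
    rw [hT, mem_filter, mem_pz] at hp
    exact ⟨hp.1.2, hp.2, hp.1.1⟩
  have hpW : ∀ p ∈ T, ¬ p ∣ W := by
    intro p hp h
    rw [hW] at h
    unfold WW at h
    rw [(hTm p hp).1.prime.dvd_finsetProd_iff] at h
    obtain ⟨q, hq, hpq⟩ := h
    rw [mem_pz] at hq
    have := Nat.le_of_dvd hq.2.pos hpq
    have h2 := (hTm p hp).2.1
    omega
  set Q : ℕ → ℝ := fun p => (1 - 1 / (p : ℝ)) ^ k with hQ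
  set δ : ℕ → ℝ := fun p => (1 - gg d n u W p) / Q p - 1 with hδ
  set bad : ℕ → ℝ := fun p => ∑ i : Fin k, ∑ j : Fin k, if i ≠ j ∧ ((p : ℕ) : ℤ) ∣ (n i : ℤ) - (n j : ℤ) then
    1 / (p : ℝ) else 0 with hbad
  have hbad0 : ∀ p, 0 ≤ bad p := by
    intro p
    apply sum_nonneg; intro i _; apply sum_nonneg; intro j _
    split_ifs <;> positivity
  have hp1 : ∀ p ∈ T, (1 : ℝ) / p ≤ 1 ∧ (k : ℝ) * (1 / p) ≤ 1 / 2 := by
    intro p hp
    have h1 : (1 : ℝ) ≤ p := by exact_mod_cast (hTm p hp).1.one_lt.le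
    have h2 : ((2 * k + 2 : ℕ) : ℝ) ≤ p := by exact_mod_cast (hB.trans (hTm p hp).2.1.le)
    push_cast at h2
    refine ⟨by rw [div_le_one (by linarith)]; exact h1, ?_⟩
    rw [mul_one_div, div_le_iff₀ (by linarith)]
    linarith
  have hQlow : ∀ p ∈ T, 1 / 2 ≤ Q p := by
    intro p hp
    have h1 := one_sub_pow_ge k (1 / (p : ℝ)) (hp1 p hp).1
    have h2 := (hp1 p hp).2
    simp only [hQ]
    linarith
  have hQ0 : ∀ p ∈ T, 0 < Q p := fun p hp => by linarith [hQlow p hp]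
  have hδb : ∀ p ∈ T, |δ p| ≤ 2 * k ^ 2 * ((p : ℝ) ^ 2)⁻¹ + 2 * k * bad p := by
    intro p hp
    have hpp := (hTm p hp).1
    have hpr : (0 : ℝ) < p := by exact_mod_cast hpp.pos
    have e : δ p = (1 - gg d n u W p - Q p) / Q p := by
      simp only [hδ]; field_simp [(hQ0 p hp).ne']
    have h0 : |δ p| ≤ 2 * |1 - gg d n u W p - Q p| := by
      rw [e, abs_div, abs_of_pos (hQ0 p hp), div_le_iff₀ (hQ0 p hp)]
      nlinarith [hQlow p hp, abs_nonneg (1 - gg d n u W p - Q p)]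
    obtain ⟨g0, g1, g2⟩ := hLOC.1 d k (by omega) n u W p hpp (hpW p hp)
    have q1 := one_sub_pow_ge k (1 / (p : ℝ)) (hp1 p hp).1
    have q2 := one_sub_pow_le k (1 / (p : ℝ)) (by positivity) (hp1 p hp).1
    have q3 : (1 - 1 / (p : ℝ)) ^ k ≤ 1 := pow_le_one₀ (by linarith [(hp1 p hp).1]) (by
      have : (0 : ℝ) ≤ 1 / p := by positivity
      linarith)
    have e1 : (k : ℝ) / p = k * (1 / p) := by ring
    have e2 : (k : ℝ) ^ 2 / (p : ℝ) ^ 2 = k ^ 2 * (1 / (p : ℝ)) ^ 2 := by ring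
    have e3 : ((p : ℝ) ^ 2)⁻¹ = (1 / (p : ℝ)) ^ 2 := by ring
    by_cases hg : ∀ i j, i ≠ j → ¬ (p : ℤ) ∣ (n i : ℤ) - (n j : ℤ)
    · have g3 := hLOC.2 d k hd n u W p hpp (hpW p hp) hg
      have h1 : |1 - gg d n u W p - Q p| ≤ k ^ 2 * (1 / (p : ℝ)) ^ 2 := by
        simp only [hQ]
        rw [abs_le]
        constructor <;> linarith
      have := hbad0 p
      have h2 : 0 ≤ 2 * (k : ℝ) * bad p := by positivity
      rw [e3]
      linarith
    · push Not at hg
      obtain ⟨i, j, hij, hdv⟩ := hg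
      have h1 : |1 - gg d n u W p - Q p| ≤ k * (1 / (p : ℝ)) := by
        simp only [hQ]
        rw [abs_le]
        constructor <;> linarith
      have h2 : 1 / (p : ℝ) ≤ bad p := by
        simp only [hbad]
        have hb1 : (if i ≠ j ∧ ((p : ℕ) : ℤ) ∣ (n i : ℤ) - (n j : ℤ) then 1 / (p : ℝ) else 0) ≤
            ∑ j : Fin k, if i ≠ j ∧ ((p : ℕ) : ℤ) ∣ (n i : ℤ) - (n j : ℤ) then 1 / (p : ℝ) else 0 := by
          apply single_le_sum (f := fun j : Fin k => if i ≠ j ∧ ((p : ℕ) : ℤ) ∣ (n i : ℤ) - (n j : ℤ) then 1 / (p : ℝ) else 0)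
            (fun j _ => by positivity) (mem_univ j)
        have hb2 : (∑ j : Fin k, if i ≠ j ∧ ((p : ℕ) : ℤ) ∣ (n i : ℤ) - (n j : ℤ) then 1 / (p : ℝ) else 0) ≤
            ∑ i : Fin k, ∑ j : Fin k, if i ≠ j ∧ ((p : ℕ) : ℤ) ∣ (n i : ℤ) - (n j : ℤ) then 1 / (p : ℝ) else 0 := by
          apply single_le_sum (f := fun i : Fin k => ∑ j : Fin k, if i ≠ j ∧ ((p : ℕ) : ℤ) ∣ (n i : ℤ) - (n j : ℤ) then 1 / (p : ℝ) else 0)
            (fun j _ => sum_nonneg fun _ _ => by positivity) (mem_univ i)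
        rw [if_pos ⟨hij, hdv⟩] at hb1
        exact hb1.trans hb2
      have h3 : 0 ≤ 2 * (k : ℝ) ^ 2 * ((p : ℝ) ^ 2)⁻¹ := by positivity
      have h4 : 2 * ((k : ℝ) * (1 / (p : ℝ))) ≤ 2 * k * bad p := by
        have : (k : ℝ) * (1 / (p : ℝ)) ≤ k * bad p := mul_le_mul_of_nonneg_left h2 (by positivity)
        linarith
      linarith
  have hsum : ∑ p ∈ T, ‖δ p‖ ≤ Real.log (1 + ε) := by
    have s1 : ∑ p ∈ T, ((p : ℝ) ^ 2)⁻¹ ≤ 1 / w := by
      rcases le_or_gt w z with hwz | hwz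
      · have h1 : ∑ p ∈ T, ((p : ℝ) ^ 2)⁻¹ ≤ ∑ m ∈ Ioc w z, ((m : ℝ) ^ 2)⁻¹ := by
          apply sum_le_sum_of_subset_of_nonneg
          · intro p hp
            rw [mem_Ioc]
            exact ⟨(hTm p hp).2.1, (hTm p hp).2.2⟩
          · intro _ _ _; positivity
        have h2 := sum_Ioc_inv_sq_le_sub (α := ℝ) (by omega : w ≠ 0) hwz
        have h3 : (0 : ℝ) ≤ (z : ℝ)⁻¹ := by positivity
        rw [one_div]
        linarith
      · omega
    have s2 : ∑ p ∈ T, bad p ≤ k ^ 2 * (C * (8 * w) / Real.log w / w) := by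
      simp only [hbad]
      rw [sum_comm]
      have h1 : ∀ i : Fin k, ∑ p ∈ T, ∑ j : Fin k, (if i ≠ j ∧ ((p : ℕ) : ℤ) ∣ (n i : ℤ) - (n j : ℤ) then
          1 / (p : ℝ) else 0) ≤ k * (C * (8 * w) / Real.log w / w) := by
        intro i
        rw [sum_comm]
        have h2 : ∀ j : Fin k, ∑ p ∈ T, (if i ≠ j ∧ ((p : ℕ) : ℤ) ∣ (n i : ℤ) - (n j : ℤ) then
          1 / (p : ℝ) else 0) ≤ C * (8 * w) / Real.log w / w := by
          intro j
          by_cases hij : i = j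
          · have : ∑ p ∈ T, (if i ≠ j ∧ ((p : ℕ) : ℤ) ∣ (n i : ℤ) - (n j : ℤ) then 1 / (p : ℝ) else 0) = 0 := by
              apply sum_eq_zero
              intro p _
              rw [if_neg]
              rintro ⟨h, _⟩
              exact h hij
            rw [this]
            positivity
          · have hne : (n i : ℤ) - (n j : ℤ) ≠ 0 := by
              intro h
              apply hij
              apply hn
              have : (n i : ℤ) = n j := by linarith
              exact_mod_cast this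
            have hM : ((((n i : ℤ) - (n j : ℤ)).natAbs : ℕ) : ℝ) ≤ L ^ C := by
              rw [Nat.cast_natAbs]
              push_cast
              have h1 := hnC i
              have h2 := hnC j
              rw [abs_le]
              have h3 : (0 : ℝ) ≤ n i := by positivity
              have h4 : (0 : ℝ) ≤ n j := by positivity
              constructor <;> linarith
            have h3 := sum_bad w z hw2 _ hne (L ^ C) hM
            have e : ∑ p ∈ T, (if i ≠ j ∧ ((p : ℕ) : ℤ) ∣ (n i : ℤ) - (n j : ℤ) then 1 / (p : ℝ) else 0) =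
                ∑ p ∈ T, (if ((p : ℕ) : ℤ) ∣ (n i : ℤ) - (n j : ℤ) then 1 / (p : ℝ) else 0) := by
              apply sum_congr rfl
              intro p _
              simp [hij]
            rw [e]
            refine h3.trans ?_
            apply div_le_div_of_nonneg_right _ hw0.le
            apply div_le_div_of_nonneg_right _ hlw.le
            rw [Real.log_pow]
            exact mul_le_mul_of_nonneg_left hlogL (by positivity)
        refine (sum_le_sum fun j _ => h2 j).trans ?_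
        rw [sum_const, card_univ, Fintype.card_fin, nsmul_eq_mul]
      refine (sum_le_sum fun i _ => h1 i).trans ?_
      rw [sum_const, card_univ, Fintype.card_fin, nsmul_eq_mul]
      apply le_of_eq
      ring
    have hA' : 2 * (k : ℝ) ^ 2 / (w : ℝ) + 16 * (k : ℝ) ^ 3 * C / Real.log w ≤ Real.log (1 + ε) := hA
    calc ∑ p ∈ T, ‖δ p‖ ≤ ∑ p ∈ T, (2 * k ^ 2 * ((p : ℝ) ^ 2)⁻¹ + 2 * k * bad p) :=
          sum_le_sum fun p hp => by rw [Real.norm_eq_abs]; exact hδb p hp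
      _ = 2 * k ^ 2 * ∑ p ∈ T, ((p : ℝ) ^ 2)⁻¹ + 2 * k * ∑ p ∈ T, bad p := by
          rw [sum_add_distrib, mul_sum, mul_sum]
      _ ≤ 2 * k ^ 2 * (1 / w) + 2 * k * (k ^ 2 * (C * (8 * w) / Real.log w / w)) := by
          apply add_le_add
          · exact mul_le_mul_of_nonneg_left s1 (by positivity)
          · exact mul_le_mul_of_nonneg_left s2 (by positivity)
      _ = 2 * (k : ℝ) ^ 2 / (w : ℝ) + 16 * (k : ℝ) ^ 3 * C / Real.log w := by
          field_simp
          ring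
      _ ≤ _ := hA'
  have hprod := Finset.norm_prod_one_add_sub_one_le T δ
  have hε' : ‖∏ p ∈ T, (1 + δ p) - 1‖ ≤ ε := by
    refine hprod.trans ?_
    have := Real.exp_le_exp.2 hsum
    rw [Real.exp_log (by linarith)] at this
    linarith
  have e1 : (Vz z / Vz w) ^ k = ∏ p ∈ T, Q p := by
    rw [Vz_ratio w z hz, ← prod_pow]
  have e2 : ∏ p ∈ T, (1 - gg d n u W p) = (∏ p ∈ T, Q p) * ∏ p ∈ T, (1 + δ p) := by
    rw [← prod_mul_distrib]
    apply prod_congr rfl
    intro p hp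
    simp only [hδ]
    have := (hQ0 p hp).ne'
    field_simp
    ring
  rw [e1, e2]
  have hQp : 0 < ∏ p ∈ T, Q p := prod_pos hQ0
  have e3 : (∏ p ∈ T, Q p) * ∏ p ∈ T, (1 + δ p) - ∏ p ∈ T, Q p = (∏ p ∈ T, Q p) * (∏ p ∈ T, (1 + δ p) - 1) := by ring
  rw [e3, abs_mul, abs_of_pos hQp, mul_comm]
  exact mul_le_mul_of_nonneg_right hε' hQp.le

theorem t_PROD : S_PROD := t_PROD' t_LOC

end Pool.Agent.Run7.h13.PO
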